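import Mathlib

/-!
# The Haar measure of a coset as a functional on polynomials
-/

set_option autoImplicit false

namespace Pool.Agent.J6H10.TZ

open Finset MvPolynomial

/-- rational points separate -/
theorem sep {σ : Type} [Fintype σ] [DecidableEq σ] (L : AddSubgroup (σ → ℤ)) (m : σ → ℤ)
    (hm : m ∉ L) : ∃ q : σ → ℚ, (∀ l ∈ L, ∃ n : ℤ, ∑ j, (l j : ℚ) * q j = n) ∧
      ¬ ∃ n : ℤ, ∑ j, (m j : ℚ) * q j = n := by
  have h0 : (QuotientAddGroup.mk m : (σ → ℤ) ⧸ L) ≠ 0 := by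
    rw [ne_eq, QuotientAddGroup.eq_zero_iff]
    exact hm
  obtain ⟨c, hc⟩ := CharacterModule.exists_character_apply_ne_zero_of_ne_zero h0
  have hq : ∀ j : σ, ∃ q : ℚ, (QuotientAddGroup.mk q : AddCircle (1 : ℚ)) =
      c (QuotientAddGroup.mk (Pi.single j 1 : σ → ℤ)) := fun j =>
    QuotientAddGroup.mk_surjective _
  choose q hq using hq
  have key : ∀ l : σ → ℤ, c (QuotientAddGroup.mk l : (σ → ℤ) ⧸ L) =
      ((∑ j, (l j : ℚ) * q j : ℚ) : AddCircle (1 : ℚ)) := by
    intro l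
    have e1 : l = ∑ j, l j • (Pi.single j 1 : σ → ℤ) := by
      funext i
      simp [Finset.sum_apply, Pi.single_apply]
    have e2 : (QuotientAddGroup.mk l : (σ → ℤ) ⧸ L) =
        ∑ j, l j • (QuotientAddGroup.mk (Pi.single j 1 : σ → ℤ) : (σ → ℤ) ⧸ L) := by
      conv_lhs => rw [e1]
      simp
    rw [e2, map_sum]
    have e3 : ((∑ j, (l j : ℚ) * q j : ℚ) : AddCircle (1 : ℚ)) =
        ∑ j, l j • ((q j : ℚ) : AddCircle (1 : ℚ)) := by
      have := map_sum (QuotientAddGroup.mk' (AddSubgroup.zmultiples (1 : ℚ)))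
        (fun j => (l j : ℚ) * q j) univ
      refine (this : _).trans ?_
      refine Finset.sum_congr rfl fun j _ => ?_
      rw [← zsmul_eq_mul]
      exact map_zsmul (QuotientAddGroup.mk' (AddSubgroup.zmultiples (1 : ℚ))) _ _
    rw [e3]
    refine Finset.sum_congr rfl fun j _ => ?_
    rw [map_zsmul]
    exact congrArg _ (hq j).symm
  refine ⟨q, ?_, ?_⟩
  · intro l hl
    have h1 : (QuotientAddGroup.mk l : (σ → ℤ) ⧸ L) = 0 := (QuotientAddGroup.eq_zero_iff l).2 hl
    have h2 := key l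
    rw [h1, map_zero] at h2
    obtain ⟨n, hn⟩ := (AddCircle.coe_eq_zero_iff (p := (1 : ℚ))).1 h2.symm
    exact ⟨n, by rw [← hn]; simp⟩
  · rintro ⟨n, hn⟩
    apply hc
    rw [key m]
    exact (AddCircle.coe_eq_zero_iff (p := (1 : ℚ))).2 ⟨n, by rw [hn]; simp⟩

/-- the subgroup, as a monoid -/
def HH {σ : Type} [Fintype σ] (L : AddSubgroup (σ → ℤ)) : Submonoid (σ → ℂ) where
  carrier := {z | (∀ j, ‖z j‖ = 1) ∧ ∀ l ∈ L, ∏ j, (z j) ^ l j = 1}
  one_mem' := ⟨by simp, by simp⟩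
  mul_mem' := by
    rintro z w ⟨h1, h2⟩ ⟨h3, h4⟩
    refine ⟨fun j => by simp [h1 j, h3 j], fun l hl => ?_⟩
    have : ∏ j, ((z * w) j) ^ l j = (∏ j, (z j) ^ l j) * ∏ j, (w j) ^ l j := by
      rw [← Finset.prod_mul_distrib]
      exact Finset.prod_congr rfl fun j _ => by rw [Pi.mul_apply, mul_zpow]
    rw [this, h2 l hl, h4 l hl, one_mul]

/-- the characters -/
def chi {σ : Type} [Fintype σ] (L : AddSubgroup (σ → ℤ)) (k : σ →₀ ℕ) : HH L →* ℂ where
  toFun z := ∏ j, (z : σ → ℂ) j ^ k j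
  map_one' := by simp
  map_mul' z w := by
    rw [← Finset.prod_mul_distrib]
    exact Finset.prod_congr rfl fun j _ => by
      rw [Submonoid.coe_mul, Pi.mul_apply, mul_pow]

theorem chi_eq_one_iff {σ : Type} [Fintype σ] [DecidableEq σ] (L : AddSubgroup (σ → ℤ))
    (k : σ →₀ ℕ) : chi L k = 1 ↔ (fun j => (k j : ℤ)) ∈ L := by
  constructor
  · intro h
    by_contra hk
    obtain ⟨q, hq1, hq2⟩ := sep L _ hk
    apply hq2
    set z : σ → ℂ := fun j => Complex.exp (2 * Real.pi * Complex.I * (q j : ℂ)) with hz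
    have hprod : ∀ l : σ → ℤ, ∏ j, z j ^ l j =
        Complex.exp ((((∑ j, (l j : ℚ) * q j : ℚ)) : ℂ) * (2 * Real.pi * Complex.I)) := by
      intro l
      rw [hz]
      simp only [← Complex.exp_int_mul]
      rw [← Complex.exp_sum]
      congr 1
      push_cast
      rw [Finset.sum_mul]
      exact Finset.sum_congr rfl fun j _ => by ring
    have hzn : ∀ j, ‖z j‖ = 1 := by
      intro j
      have : z j = Complex.exp (((2 * Real.pi * (q j : ℝ) : ℝ) : ℂ) * Complex.I) := by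
        simp only [hz]
        congr 1
        push_cast
        ring
      rw [this, Complex.norm_exp_ofReal_mul_I]
    have hzH : z ∈ HH L := by
      refine ⟨hzn, fun l hl => ?_⟩
      obtain ⟨n, hn⟩ := hq1 l hl
      rw [hprod, hn]
      rw [Complex.exp_eq_one_iff]
      exact ⟨n, by push_cast; ring⟩
    have h2 := DFunLike.congr_fun h ⟨z, hzH⟩
    have h3 : ∏ j, z j ^ ((k j : ℕ) : ℤ) = 1 := by
      simpa [chi] using h2
    rw [hprod (fun j => (k j : ℤ)), Complex.exp_eq_one_iff] at h3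
    obtain ⟨n, hn⟩ := h3
    have h2pi : (2 * (Real.pi : ℂ) * Complex.I) ≠ 0 := Complex.two_pi_I_ne_zero
    have h4 := mul_right_cancel₀ h2pi hn
    refine ⟨n, ?_⟩
    exact_mod_cast h4
  · intro h
    ext z
    have := z.2.2 _ h
    simpa [chi] using this

theorem cos_main {σ : Type} [Fintype σ] [DecidableEq σ] (L : AddSubgroup (σ → ℤ))
    [DecidablePred fun k : σ →₀ ℕ => (fun j => (k j : ℤ)) ∈ L] (a : σ → ℂ)
    (ha : ∀ j, ‖a j‖ = 1) (f : MvPolynomial σ ℂ)
    (hf : ∀ z : σ → ℂ, (∀ j, ‖z j‖ = 1) → (∀ l ∈ L, ∏ j, (z j / a j) ^ l j = 1) → eval z f = 0) :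
    ∑ k ∈ f.support, f.coeff k *
      (if (fun j => (k j : ℤ)) ∈ L then ∏ j, a j ^ k j else 0) = 0 := by
  classical
  have ha0 : ∀ j, a j ≠ 0 := fun j h => by
    have := ha j
    rw [h, norm_zero] at this
    exact zero_ne_one this
  set h : (σ →₀ ℕ) → ℂ := fun k => f.coeff k * ∏ j, a j ^ k j with hh
  have h1 : ∀ z : HH L, ∑ k ∈ f.support, h k * chi L k z = 0 := by
    intro z
    have h2 := hf (fun j => a j * (z : σ → ℂ) j) (fun j => by rw [norm_mul, ha j, z.2.1 j, one_mul])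
      (fun l hl => by
        rw [← z.2.2 l hl]
        exact Finset.prod_congr rfl fun j _ => by rw [mul_div_cancel_left₀ _ (ha0 j)])
    rw [MvPolynomial.eval_eq'] at h2
    rw [← h2]
    refine Finset.sum_congr rfl fun k _ => ?_
    rw [hh]
    simp only [chi, MonoidHom.coe_mk, OneHom.coe_mk, mul_pow, Finset.prod_mul_distrib]
    ring
  set s : Finset (HH L →* ℂ) := insert 1 (f.support.image (chi L)) with hs
  set g : (HH L →* ℂ) → ℂ := fun χ => ∑ k ∈ f.support with chi L k = χ, h k with hg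
  have hli := linearIndependent_iff'.1 (linearIndependent_monoidHom (HH L) ℂ) s g (by
    funext z
    rw [Finset.sum_apply, Pi.zero_apply, ← h1 z]
    rw [← Finset.sum_fiberwise_of_maps_to (s := f.support) (t := s) (g := chi L)
      (fun k hk => mem_insert_of_mem (mem_image_of_mem _ hk))]
    refine Finset.sum_congr rfl fun χ _ => ?_
    rw [Pi.smul_apply, smul_eq_mul, hg]
    simp only
    rw [Finset.sum_mul]
    refine Finset.sum_congr rfl fun k hk => ?_
    rw [(mem_filter.1 hk).2]) 1 (mem_insert_self _ _)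
  rw [hg] at hli
  simp only at hli
  refine Eq.trans ?_ hli
  rw [Finset.sum_filter]
  refine Finset.sum_congr rfl fun k _ => ?_
  by_cases hk : (fun j => (k j : ℤ)) ∈ L
  · rw [if_pos hk, if_pos ((chi_eq_one_iff L k).2 hk)]
  · rw [if_neg hk, if_neg (fun h => hk ((chi_eq_one_iff L k).1 h)), mul_zero]

end Pool.Agent.J6H10.TZ
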