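import Pool.Agent.J6H91.TZ.Stm
import Pool.Agent.J6H10.TZ.Cos

/-!
# Module TZ-COS of the project TZ of helper91
-/

set_option autoImplicit false

namespace Pool.Agent.J6H10.TZ

open MvPolynomial

theorem s_cos : Pool.Agent.J6H91.TZ.S_COS := by
  intro σ _ _ L inst a ha f hf
  have : DecidablePred fun k : σ →₀ ℕ => (fun j => (k j : ℤ)) ∈ L := inst
  have h := cos_main L a ha f (fun z h1 h2 => hf z ⟨h1, h2⟩)
  unfold Pool.Agent.J6H91.Cyc.functional
  refine Eq.trans ?_ h
  refine Finset.sum_congr rfl fun k _ => ?_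
  congr 1
  by_cases hk : Pool.Agent.J6H91.Cyc.toZ k ∈ L
  · exact (if_pos hk).trans (if_pos hk).symm
  · exact (if_neg hk).trans (if_neg hk).symm

end Pool.Agent.J6H10.TZ
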